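import Mathlib
import Pool.Agent.Q112.AskeyWilson

/-!
# A diagonalizable third element that does not complete a Leonard pair to a Leonard triple

`A = diag(0, 1, 2)`, `A'` is the matrix with rows `(6, -30, 0), (1, -8, -6), (0, 1, 2)` and
`A'' = 2 A - A'`, with eigenvalues `-4, 4, 6`.
-/

namespace Pool.Agent.Results.MP_b3a6b1_al.NotLeonardTriple

open Pool.Agent.Q112.Leo

/-- Over every field `K` of characteristic zero there are a Leonard pair `A, A'` on `K³` and a
linear map `A''` satisfying (i)-(iv) which is diagonalizable, but such that `A, A', A''` is not a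
Leonard triple. -/
theorem result (K : Type) [Field K] [CharZero K] :
    ∃ A A' A'' : Module.End K (Fin 3 → K), IsLeonardPair 2 A A' ∧
      A'' ∈ Submodule.span K {1, A, A', A * A', A' * A} ∧
      A ∈ Submodule.span K {1, A', A'', A' * A'', A'' * A'} ∧
      A' ∈ Submodule.span K {1, A'', A, A'' * A, A * A''} ∧
      SatisfiesAW A A' ∧ SatisfiesAW A A'' ∧ SatisfiesAW A' A'' ∧
      IsDiagonalizable 2 A'' ∧ ¬ IsLeonardTriple 2 A A' A'' :=
  awmain

end Pool.Agent.Results.MP_b3a6b1_al.NotLeonardTriple
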